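import Pool.Agent.PTG.All

/-!
# All connected bodies
-/

set_option autoImplicit false

open Pool.Agent.PTA Pool.Agent.PTP Pool.Agent.PSQ

namespace Pool.Agent.Results.MP_eac546_co.ConnectedBodies

/-- Let `C` be a body of the plane; there is no condition on its boundary. Suppose that `C` is
connected, or that for every direction `e` of a segment contained in the boundary the differences of
the heights `e.1 * x.2 - e.2 * x.1` of interior points form an interval (no condition if the
boundary contains no segment). If `C` tiles the plane by translates, then it has a periodic
tiling. -/
theorem result (C : Set (ℝ × ℝ)) (hC : IsBody C)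
    (h : (∀ e, Dir C e → Iv C e) ∨ IsPreconnected C) (hT : ∃ T, Tiling C T) :
    ∃ T, Tiling C T ∧ Periodic T :=
  Pool.Agent.PTG.final_R9 Pool.Agent.PTG.p_R9 C hC h hT

end Pool.Agent.Results.MP_eac546_co.ConnectedBodies
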