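import Pool.Agent.CEX.Final

/-!
# A body of the plane which tiles by translates and has no periodic tiling
-/

set_option autoImplicit false

open Pool.Agent.PSQ

namespace Pool.Agent.Results.MP_eac546_co.Counterexample

/-- There is a nonconvex body `C` of the plane (a compact set that is the closure of its interior)
such that the plane can be tiled by translates of `C`, but no tiling of the plane by translates of
`C` is periodic. -/
theorem result : ∃ C : Set (ℝ × ℝ), IsBody C ∧ ¬ Convex ℝ C ∧ (∃ T, Tiling C T) ∧
    ¬ ∃ T, Tiling C T ∧ Periodic T :=
  Pool.Agent.CEX.main

end Pool.Agent.Results.MP_eac546_co.Counterexample
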