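import Pool.Agent.PTF.Body

/-!
# Arbitrary bodies with a tiling of finite local complexity
-/

set_option autoImplicit false

open Pool.Agent.PSQ

namespace Pool.Agent.Results.MP_eac546_co.FiniteComplexity

/-- Let `C` be a compact subset of the plane (for instance a body, of any shape, connected or
not), and let `{C + t : t ∈ T}` be a tiling of finite local complexity: for every `R` the set of
the differences of norm at most `R` of elements of `T` is finite. Then `C` has a periodic
tiling. -/
theorem result (C : Set (ℝ × ℝ)) (hC : IsCompact C) (T : Set (ℝ × ℝ)) (hT : Tiling C T)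
    (hF : ∀ R : ℝ, {d : ℝ × ℝ | ‖d‖ ≤ R ∧ ∃ t ∈ T, t + d ∈ T}.Finite) :
    ∃ T', Tiling C T' ∧ Periodic T' :=
  Pool.Agent.PTF.flc_body hC hT hF

end Pool.Agent.Results.MP_eac546_co.FiniteComplexity
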