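import Pool.Agent.PTR.Final

/-!
# Tilings by translates of unions of parallelograms with sides in two directions
-/

set_option autoImplicit false

open Pool.Agent.PTR Pool.Agent.PSQ

namespace Pool.Agent.Results.MP_eac546_co.TwoDirections

/-- Let `a, b` be linearly independent vectors and let `C` be the union of finitely many
parallelograms `{x a + y b : l ≤ x ≤ r, s ≤ y ≤ t}`, `((l, r), (s, t)) ∈ B`, with arbitrary real
numbers `l < r` and `s < t`. Then `C` is a body. Let `X` be the union of the intervals `[l, r]`
and `Y` the union of the intervals `[s, t]`. Suppose that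
* the `d` for which `X` and `X + d` overlap form an interval, or all `s, t` are commensurable, and
* the `d` for which `Y` and `Y + d` overlap form an interval, or all `l, r` are commensurable;
or that `C` is connected. If `C` tiles the plane by translates then it has a periodic tiling. -/
theorem result (a b : ℝ × ℝ) (hab : LinearIndependent ℝ ![a, b]) (B : Finset Box)
    (h0 : B.Nonempty) (hB : ∀ q ∈ B, q.1.1 < q.1.2 ∧ q.2.1 < q.2.2) :
    IsBody (pbody a b B) ∧
      ((((FstDiff B).OrdConnected ∨ Comm (yco B)) ∧ ((SndDiff B).OrdConnected ∨ Comm (xco B)) ∨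
          IsPreconnected (pbody a b B)) →
        (∃ T, Pool.Agent.PSQ.Tiling (pbody a b B) T) →
        ∃ T, Pool.Agent.PSQ.Tiling (pbody a b B) T ∧ Periodic T) := by
  refine ⟨(main a b hab B h0 hB).1, ?_⟩
  rintro h ⟨T, hT⟩
  exact (main a b hab B h0 hB).2 T hT (h.imp_right Or.inr)

end Pool.Agent.Results.MP_eac546_co.TwoDirections
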